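import Pool.Agent.helper95.T5.SpecE

set_option autoImplicit false

namespace Pool.Agent.T5

open Finset NumberField Pool.Agent.helper3.FT Pool.Agent.helper47.RA

theorem SZ_core (n k Z L d m g : ℝ) (hn : 0 < n) (hk : 0 < k) (hZ : 0 < Z) (hL : 0 < L)
    (hd : 0 < d)
    (h1 : -d * (n * k) ^ 2 = (Z * g - L * m) ^ 2 - 4 * Z ^ 2 * L * k ^ 2)
    (h2 : -d * (n * k) ^ 2 = (Z * g + L * m) ^ 2 - 4 * Z * L ^ 2 * n ^ 2) :
    n * √d ≤ 2 * Z * √L ∧ k * √d ≤ 2 * √Z * L ∧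
    |m| ≤ √Z * n + Z / √L * k ∧ |g| ≤ L / √Z * n + √L * k := by
  have hd' := Real.sqrt_nonneg d
  have hL' : 0 < √L := Real.sqrt_pos.2 hL
  have hZ' : 0 < √Z := Real.sqrt_pos.2 hZ
  have sd : √d ^ 2 = d := Real.sq_sqrt hd.le
  have sL : √L ^ 2 = L := Real.sq_sqrt hL.le
  have sZ : √Z ^ 2 = Z := Real.sq_sqrt hZ.le
  generalize √d = D at hd' sd ⊢
  generalize √L = l at hL' sL ⊢
  generalize √Z = z at hZ' sZ ⊢
  subst sd sL sZ
  have a1 : n * D ≤ 2 * z ^ 2 * l := by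
    have h3 : (n * D * k) ^ 2 ≤ (2 * z ^ 2 * l * k) ^ 2 := by nlinarith [sq_nonneg (z ^ 2 * g - l ^ 2 * m)]
    have h4 : n * D * k ≤ 2 * z ^ 2 * l * k := (abs_le_of_sq_le_sq h3 (by positivity)).trans' (le_abs_self _)
    exact le_of_mul_le_mul_right h4 hk
  have a2 : k * D ≤ 2 * z * l ^ 2 := by
    have h3 : (k * D * n) ^ 2 ≤ (2 * z * l ^ 2 * n) ^ 2 := by nlinarith [sq_nonneg (z ^ 2 * g + l ^ 2 * m)]
    have h4 : k * D * n ≤ 2 * z * l ^ 2 * n := (abs_le_of_sq_le_sq h3 (by positivity)).trans' (le_abs_self _)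
    exact le_of_mul_le_mul_right h4 hn
  have a3 : |z ^ 2 * g - l ^ 2 * m| ≤ 2 * z ^ 2 * l * k := by
    refine abs_le_of_sq_le_sq ?_ (by positivity)
    nlinarith [sq_nonneg (D * n * k)]
  have a4 : |z ^ 2 * g + l ^ 2 * m| ≤ 2 * z * l ^ 2 * n := by
    refine abs_le_of_sq_le_sq ?_ (by positivity)
    nlinarith [sq_nonneg (D * n * k)]
  rw [abs_le] at a3 a4
  refine ⟨a1, a2, ?_, ?_⟩
  · have e : z * n + z ^ 2 / l * k = (2 * z * l ^ 2 * n + 2 * z ^ 2 * l * k) / (2 * l ^ 2) := by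
      field_simp
    rw [e, le_div_iff₀ (by positivity)]
    have h5 : |m| * (2 * l ^ 2) = |2 * l ^ 2 * m| := by
      rw [abs_mul, abs_of_pos (by positivity : (0 : ℝ) < 2 * l ^ 2)]
      ring
    rw [h5, abs_le]
    constructor <;> linarith [a3.1, a3.2, a4.1, a4.2]
  · have e : l ^ 2 / z * n + l * k = (2 * z * l ^ 2 * n + 2 * z ^ 2 * l * k) / (2 * z ^ 2) := by
      field_simp
    rw [e, le_div_iff₀ (by positivity)]
    have h5 : |g| * (2 * z ^ 2) = |2 * z ^ 2 * g| := by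
      rw [abs_mul, abs_of_pos (by positivity : (0 : ℝ) < 2 * z ^ 2)]
      ring
    rw [h5, abs_le]
    constructor <;> linarith [a3.1, a3.2, a4.1, a4.2]

theorem SZ (hTR : TR_stmt) : SZ_stmt := by
  intro t ht hZ hL hd
  obtain ⟨-, -, -, -, h1, h2, -⟩ := hTR t ht
  have hn : (0 : ℝ) < t.1.1 := by exact_mod_cast ht.n1
  have hk : (0 : ℝ) < t.1.2 := by exact_mod_cast ht.k1
  have h1' : -(-(dis t : ℝ)) * ((t.1.1 : ℝ) * t.1.2) ^ 2 =
      ((t.2.2.2 : ℝ) * t.2.2.1 - lam t * t.2.1) ^ 2 - 4 * (t.2.2.2 : ℝ) ^ 2 * lam t * (t.1.2 : ℝ) ^ 2 := by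
    rw [neg_neg]
    exact_mod_cast h1
  have h2' : -(-(dis t : ℝ)) * ((t.1.1 : ℝ) * t.1.2) ^ 2 =
      ((t.2.2.2 : ℝ) * t.2.2.1 + lam t * t.2.1) ^ 2 - 4 * (t.2.2.2 : ℝ) * (lam t : ℝ) ^ 2 * (t.1.1 : ℝ) ^ 2 := by
    rw [neg_neg]
    exact_mod_cast h2
  exact SZ_core _ _ _ _ _ _ _ hn hk (by exact_mod_cast hZ) (by exact_mod_cast hL)
    (by
      have : (dis t : ℝ) < 0 := by exact_mod_cast hd
      linarith) h1' h2'

end Pool.Agent.T5
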