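import Pool.Agent.helper3.T5.SpecA

set_option autoImplicit false

namespace Pool.Agent.T5

open Finset NumberField Pool.Agent.helper3.FT Pool.Agent.helper47.RA

theorem AGEX_unit {K : Type} [Field K] [NumberField K] (Q : QF K) (hD : Q.D < -4)
    (e : 𝓞 K) (he : IsUnit e) : e = 1 ∨ e = -1 := by
  obtain ⟨x, hx⟩ := Q.exists_re e
  generalize Q.Y e = y at hx
  have hN : e * Q.cj e = ((x ^ 2 + Q.t * x * y - Q.k * y ^ 2 : ℤ) : 𝓞 K) := by
    rw [hx, Q.norm_form]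
  have h1 := Q.absNorm_eq e _ hN
  have h2 : Ideal.span {e} = (⊤ : Ideal (𝓞 K)) := Ideal.span_singleton_eq_top.2 he
  rw [h2, Ideal.absNorm_top] at h1
  have h3 : x ^ 2 + Q.t * x * y - Q.k * y ^ 2 = 1 ∨ x ^ 2 + Q.t * x * y - Q.k * y ^ 2 = -1 := by
    have h4 : |x ^ 2 + Q.t * x * y - Q.k * y ^ 2| = 1 := by
      rw [← h1]
      norm_num
    rcases abs_choice (x ^ 2 + Q.t * x * y - Q.k * y ^ 2) with h5 | h5
    · left; rw [← h5, h4]
    · right; rw [h5] at h4; linarith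
  have ht : Q.t ^ 2 = Q.t := Q.t_sq
  have h6 : 4 * (x ^ 2 + Q.t * x * y - Q.k * y ^ 2) = (2 * x + Q.t * y) ^ 2 - Q.D * y ^ 2 := by
    rw [Q.hk]
    linear_combination (-y ^ 2) * ht
  have hy : y = 0 := by
    by_contra hy
    have h7 : 1 ≤ y ^ 2 := by
      have : 0 < y ^ 2 := by positivity
      linarith
    have h8 : 4 < (-Q.D) * y ^ 2 := by nlinarith
    have h9 := sq_nonneg (2 * x + Q.t * y)
    rcases h3 with h3 | h3 <;> rw [h3] at h6 <;> linarith
  subst hy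
  have h10 : x ^ 2 = 1 := by
    rcases h3 with h3 | h3
    · linarith [h3]
    · have := sq_nonneg x
      nlinarith
  have h11 : x = 1 ∨ x = -1 := by
    have : (x - 1) * (x + 1) = 0 := by linear_combination h10
    rcases mul_eq_zero.1 this with h | h
    · left; linarith
    · right; linarith
  rcases h11 with h | h
  · left; rw [hx, h]; simp
  · right; rw [hx, h]; simp

theorem AGEX : AGEX_stmt := by
  intro K _ _ Q a α ha
  refine ⟨?_, ?_, ?_, ?_⟩
  · intro hp hα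
    obtain ⟨θ, hθ⟩ := (Submodule.isPrincipal_iff _).1 hp
    have hθ' : a ^ 5 = Ideal.span {θ} := hθ
    have h1 : (Ideal.absNorm a : 𝓞 K) ∈ a := Ideal.absNorm_mem a
    have h2 : α ^ 2 ∈ (a ^ 2) ^ 2 := Ideal.pow_mem_pow hα 2
    have h3 : (Ideal.absNorm a : 𝓞 K) * α ^ 2 ∈ a * (a ^ 2) ^ 2 := Ideal.mul_mem_mul h1 h2
    have h4 : a * (a ^ 2) ^ 2 = a ^ 5 := by ring
    rw [h4, hθ'] at h3
    obtain ⟨γ, hγ⟩ := Ideal.mem_span_singleton.1 h3
    exact ⟨γ, θ, hθ', by rw [hγ]; ring⟩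
  · rintro γ ⟨θ, h1, h2⟩
    refine ⟨-θ, ?_, ?_⟩
    · rw [h1, Ideal.span_singleton_neg]
    · rw [← h2]; ring
  · rintro γ ⟨θ, h1, h2⟩
    refine ⟨θ, h1, ?_⟩
    rw [h2]; ring
  · rintro hD γ γ' ⟨θ, h1, h2⟩ ⟨θ', h1', h2'⟩
    have hθ0 : θ ≠ 0 := by
      rintro rfl
      have h3 : a ^ 5 = ⊥ := by rw [h1]; simp
      exact ha (by
        have : a ^ 5 = 0 := h3
        exact pow_eq_zero_iff (by norm_num) |>.1 this)
    have h3 : Ideal.span {θ} = Ideal.span {θ'} := by rw [← h1, h1']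
    obtain ⟨u, hu⟩ := Ideal.span_singleton_eq_span_singleton.1 h3
    have h4 : γ = γ' * u := by
      have h5 : θ * γ = θ * (γ' * u) := by
        rw [← hu] at h2'
        calc θ * γ = γ * θ := by ring
          _ = (Ideal.absNorm a : 𝓞 K) * α ^ 2 := h2
          _ = γ' * (θ * u) := h2'.symm
          _ = θ * (γ' * u) := by ring
      exact mul_left_cancel₀ hθ0 h5
    rcases AGEX_unit Q hD u u.isUnit with h | h
    · left; rw [h4, h, mul_one]
    · right; rw [h4, h]; ring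

end Pool.Agent.T5
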