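import Pool.Agent.helper26.T5.SpecA

set_option autoImplicit false

namespace Pool.Agent.helper26.T5

open MeasureTheory

theorem lq3 (h1 : LQ1) : LQ3 := by
  intro p hp A B C hD hpD
  have hpp : Prime (p : ℤ) := Nat.prime_iff_prime_int.1 hp
  have key : ∀ n₁ n₂ : ℤ, ¬ ((p : ℤ) ∣ n₁ ∧ (p : ℤ) ∣ n₂) →
      (∀ x y : ℤ, (p : ℤ) ∣ A * x ^ 2 + B * x * y + C * y ^ 2 ↔ (p : ℤ) ∣ n₁ * x + n₂ * y) →
      ((sq p).filter (fun v => ¬ (p : ℤ) ∣ A * v.1 ^ 2 + B * v.1 * v.2 + C * v.2 ^ 2)).card =
        p ^ 2 - p := by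
    intro n₁ n₂ hn h
    rw [← h1 p hp n₁ n₂ hn]
    congr 1
    apply Finset.filter_congr
    intro v _
    rw [h v.1 v.2]
  by_cases hp2 : p = 2
  · subst hp2
    push_cast at hpD
    rcases hD with ⟨h2, _, _⟩ | ⟨m, hm, hm4, _⟩
    · exfalso
      omega
    · have hB : (2 : ℤ) ∣ B := by
        have : (2 : ℤ) ∣ B ^ 2 := ⟨2 * m + 2 * (A * C), by linear_combination hm⟩
        exact Int.prime_two.dvd_of_dvd_pow this
      obtain ⟨b, rfl⟩ := hB
      have hmb : m = b ^ 2 - A * C := by linarith [hm]
      apply key A C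
      · rintro ⟨⟨a, ha⟩, ⟨c, hc⟩⟩
        push_cast at ha hc
        have h5 : m = b ^ 2 - 4 * (a * c) := by rw [hmb, ha, hc]; ring
        rcases Int.even_or_odd' b with ⟨t, ht | ht⟩
        · have : m = 4 * (t ^ 2 - a * c) := by rw [h5, ht]; ring
          omega
        · have : m = 4 * (t ^ 2 + t - a * c) + 1 := by rw [h5, ht]; ring
          omega
      · intro x y
        push_cast
        have hx : (2 : ℤ) ∣ x * (x - 1) := (Int.even_mul_pred_self x).two_dvd
        have hy : (2 : ℤ) ∣ y * (y - 1) := (Int.even_mul_pred_self y).two_dvd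
        obtain ⟨s, hs⟩ := hx
        obtain ⟨t, ht⟩ := hy
        have e : A * x ^ 2 + 2 * b * x * y + C * y ^ 2 =
            (A * x + C * y) + 2 * (A * s + b * x * y + C * t) := by
          linear_combination A * hs + C * ht
        rw [e]
        exact (Int.dvd_add_left (Dvd.intro _ rfl))
  · have hp2' : ¬ (p : ℤ) ∣ 2 := by
      intro h
      have h3 : p ∣ 2 := by exact_mod_cast h
      exact hp2 ((Nat.prime_dvd_prime_iff_eq hp Nat.prime_two).1 h3)
    by_cases hA : (p : ℤ) ∣ A
    · have hB : (p : ℤ) ∣ B := by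
        have : (p : ℤ) ∣ B ^ 2 := by
          have h3 : (p : ℤ) ∣ 4 * A * C := Dvd.dvd.mul_right (Dvd.dvd.mul_left hA 4) C
          have h4 := dvd_add hpD h3
          have h5 : B ^ 2 - 4 * A * C + 4 * A * C = B ^ 2 := by ring
          rwa [h5] at h4
        exact hpp.dvd_of_dvd_pow this
      have hC : ¬ (p : ℤ) ∣ C := by
        intro hC
        have h6 : (p : ℤ) ^ 2 ∣ B ^ 2 - 4 * A * C := by
          obtain ⟨a, rfl⟩ := hA
          obtain ⟨b, rfl⟩ := hB
          obtain ⟨c, rfl⟩ := hC
          exact ⟨b ^ 2 - 4 * a * c, by ring⟩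
        rcases Pool.Agent.helper47.RA.IsFund.sq_dvd hD h6 with h7 | ⟨_, _, _, h7 | h7⟩
        · exact hpp.not_unit h7
        · exact hp2 (by exact_mod_cast h7)
        · have : (0 : ℤ) < p := by exact_mod_cast hp.pos
          omega
      apply key 0 C
      · rintro ⟨_, h⟩
        exact hC h
      · intro x y
        obtain ⟨a, rfl⟩ := hA
        obtain ⟨b, rfl⟩ := hB
        have e : (p : ℤ) * a * x ^ 2 + p * b * x * y + C * y ^ 2 =
            C * y ^ 2 + p * (a * x ^ 2 + b * x * y) := by ring
        rw [e, Int.dvd_add_left (Dvd.intro _ rfl), zero_mul, zero_add]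
        constructor
        · intro h
          rcases hpp.dvd_or_dvd h with h | h
          · exact Dvd.dvd.mul_right h y
          · exact Dvd.dvd.mul_left (hpp.dvd_of_dvd_pow h) C
        · intro h
          have : C * y ^ 2 = C * y * y := by ring
          rw [this]
          exact Dvd.dvd.mul_right h y
    · have h2A : ¬ (p : ℤ) ∣ 2 * A := by
        intro h
        rcases hpp.dvd_or_dvd h with h | h
        · exact hp2' h
        · exact hA h
      apply key (2 * A) B
      · rintro ⟨h, _⟩
        exact h2A h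
      · intro x y
        have h4A : ¬ (p : ℤ) ∣ 4 * A := by
          intro h
          have : (4 : ℤ) * A = 2 * (2 * A) := by ring
          rw [this] at h
          rcases hpp.dvd_or_dvd h with h | h
          · exact hp2' h
          · exact h2A h
        obtain ⟨d, hd⟩ := hpD
        have e : 4 * A * (A * x ^ 2 + B * x * y + C * y ^ 2) =
            (2 * A * x + B * y) ^ 2 + p * (-(d * y ^ 2)) := by
          linear_combination (-y ^ 2) * hd
        constructor
        · intro h
          have h5 : (p : ℤ) ∣ 4 * A * (A * x ^ 2 + B * x * y + C * y ^ 2) := Dvd.dvd.mul_left h _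
          rw [e, Int.dvd_add_left (Dvd.intro _ rfl)] at h5
          exact hpp.dvd_of_dvd_pow h5
        · intro h
          have h5 : (p : ℤ) ∣ (2 * A * x + B * y) ^ 2 := dvd_pow h two_ne_zero
          have h6 : (p : ℤ) ∣ 4 * A * (A * x ^ 2 + B * x * y + C * y ^ 2) := by
            rw [e]
            exact (Int.dvd_add_left (Dvd.intro _ rfl)).2 h5
          rcases hpp.dvd_or_dvd h6 with h | h
          · exact absurd h h4A
          · exact h

end Pool.Agent.helper26.T5
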