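import Pool.Agent.helper82.T5.SpecS

set_option autoImplicit false

namespace Pool.Agent.T5

open Finset NumberField Pool.Agent.helper3.FT Pool.Agent.helper47.RA

theorem SLA (hSFA : SFA_stmt) (hSMW : SMW_stmt) : ∀ d : ℝ, SLA_stmt d := by
  classical
  intro d hd hL1 hLE
  obtain ⟨C, N₁, hC, hLE⟩ := hLE
  obtain ⟨hMW1, -, -, hwt⟩ := hSMW
  obtain ⟨hfin1, hfin2, -⟩ := hSFA
  refine ⟨C, hC, fun w ε hε => ?_⟩
  obtain ⟨N₂, hL1⟩ := hL1 w ε hε
  refine ⟨max (max N₁ N₂) 1, ?_⟩
  intro K _ _ Q N Y hK hN hD1 hD2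
  have hN1 : N₁ ≤ N := (le_max_left _ _).trans ((le_max_left _ _).trans hN)
  have hN2 : N₂ ≤ N := (le_max_right _ _).trans ((le_max_left _ _).trans hN)
  have hN3 : 1 ≤ N := (le_max_right _ _).trans hN
  have hDneg : Q.D < 0 := by
    have : (Q.D : ℝ) < 0 := by linarith
    exact_mod_cast this
  have hNd : 0 ≤ N ^ d := Real.rpow_nonneg (by linarith) d
  have hA := hfin1 K Y
  have hAL := hfin2 K Q hDneg
  have hE : (EX Q Y (N ^ (1 / 2 - d / 2))).Finite := hA.subset fun a ha => ha.1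
  -- the set of pairs is finite
  have hG : (G0 Q N Y d).Finite := by
    have h1 : (⋃ a ∈ IA K Y, (fun α => (a, α)) '' AL Q a (N ^ d * √(-(Q.D : ℝ)))).Finite :=
      hA.biUnion fun a _ => (hAL a _).image _
    refine h1.subset ?_
    rintro ⟨a, α⟩ ⟨h2, h3, -⟩
    exact Set.mem_biUnion h2 ⟨α, h3, rfl⟩
  rw [finsum_mem_eq_finite_toFinset_sum _ hG]
  have hmaps : ∀ x ∈ hG.toFinset, x.1 ∈ hA.toFinset := by
    intro x hx
    rw [Set.Finite.mem_toFinset] at hx ⊢
    exact hx.1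
  rw [← Finset.sum_fiberwise_of_maps_to hmaps]
  -- the bound for one ideal
  have hone : ∀ a ∈ hA.toFinset,
      ∑ x ∈ hG.toFinset.filter (fun x => x.1 = a), wt Q w x.1 x.2 ≤
        (Real.pi + ε) * N ^ d +
          (if a ∈ EX Q Y (N ^ (1 / 2 - d / 2)) then MW w * C * N ^ d else 0) := by
    intro a ha
    rw [Set.Finite.mem_toFinset] at ha
    have hinj : Set.InjOn (fun x : Ideal (𝓞 K) × 𝓞 K => x.2)
        (hG.toFinset.filter (fun x => x.1 = a)) := by
      intro x hx y hy hxy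
      rw [Finset.mem_coe, Finset.mem_filter] at hx hy
      exact Prod.ext (hx.2.trans hy.2.symm) hxy
    have hsum : ∑ x ∈ hG.toFinset.filter (fun x => x.1 = a), wt Q w x.1 x.2 =
        ∑ α ∈ (hG.toFinset.filter (fun x => x.1 = a)).image (fun x => x.2), wt Q w a α := by
      rw [Finset.sum_image hinj]
      refine Finset.sum_congr rfl fun x hx => ?_
      rw [(Finset.mem_filter.1 hx).2]
    rw [hsum]
    have hmem : ∀ α ∈ (hG.toFinset.filter (fun x => x.1 = a)).image (fun x => x.2),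
        α ∈ AL Q a (N ^ d * √(-(Q.D : ℝ))) ∧ ∃ γ, IsGam a α γ ∧ gd Q α γ = 1 := by
      intro α hα
      obtain ⟨x, hx, rfl⟩ := Finset.mem_image.1 hα
      obtain ⟨hx1, hx2⟩ := Finset.mem_filter.1 hx
      rw [Set.Finite.mem_toFinset] at hx1
      obtain ⟨-, h3, γ, h4, h5⟩ := hx1
      rw [hx2] at h3 h4
      exact ⟨h3, γ, h4.ga, h5⟩
    by_cases haE : a ∈ EX Q Y (N ^ (1 / 2 - d / 2))
    · rw [if_pos haE]
      have h6 := hLE K Q N Y a hK hN1 hD1 hD2 ha _ hmem
      have h7 : ∑ α ∈ (hG.toFinset.filter (fun x => x.1 = a)).image (fun x => x.2), wt Q w a α ≤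
          ((hG.toFinset.filter (fun x => x.1 = a)).image (fun x => x.2)).card • MW w :=
        Finset.sum_le_card_nsmul _ _ _ fun α _ => (hwt K Q w a α).2
      rw [nsmul_eq_mul] at h7
      have hM : 0 ≤ MW w := zero_le_one.trans (hMW1 w)
      have h8 := mul_le_mul_of_nonneg_right h6 hM
      have h9 : 0 ≤ (Real.pi + ε) * N ^ d := mul_nonneg (by linarith [Real.pi_pos]) hNd
      linarith
    · rw [if_neg haE, add_zero]
      have h6 := hL1 K Q N Y a hK hN2 hD1 hD2 ha haE (hAL a _).toFinset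
        (fun α => by rw [Set.Finite.mem_toFinset])
      have h7 : ∑ α ∈ (hG.toFinset.filter (fun x => x.1 = a)).image (fun x => x.2), wt Q w a α ≤
          ∑ α ∈ (hAL a (N ^ d * √(-(Q.D : ℝ)))).toFinset, wt Q w a α := by
        refine Finset.sum_le_sum_of_subset_of_nonneg ?_ fun α _ _ => (hwt K Q w a α).1
        intro α hα
        rw [Set.Finite.mem_toFinset]
        exact (hmem α hα).1
      have h8 := (abs_le.1 h6).2
      linarith
  refine (Finset.sum_le_sum hone).trans ?_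
  rw [Finset.sum_add_distrib, Finset.sum_const, nsmul_eq_mul, Finset.sum_ite, Finset.sum_const_zero,
    add_zero, Finset.sum_const, nsmul_eq_mul, Set.ncard_eq_toFinset_card _ hA,
    Set.ncard_eq_toFinset_card _ hE]
  have hfe : hA.toFinset.filter (fun a => a ∈ EX Q Y (N ^ (1 / 2 - d / 2))) = hE.toFinset := by
    ext a
    rw [Finset.mem_filter, Set.Finite.mem_toFinset, Set.Finite.mem_toFinset]
    exact ⟨fun h => h.2, fun h => ⟨h.1, h⟩⟩
  rw [hfe]
  linarith

end Pool.Agent.T5
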